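import Mathlib

set_option autoImplicit false
open Filter Topology Set

namespace Pool.Agent.Results.MP_f73729_an.AlmostLipschitzBesicovitch

/-- The cylindrical transformation `T_φ(x,y) = (x + α, y + φ(x))` of `(ℝ/ℤ) × ℝ`, as a bijection. -/
def cyl (α : UnitAddCircle) (φ : UnitAddCircle → ℝ) : Equiv.Perm (UnitAddCircle × ℝ) where
  toFun p := (p.1 + α, p.2 + φ p.1)
  invFun p := (p.1 - α, p.2 - φ (p.1 - α))
  left_inv p := by ext <;> simp
  right_inv p := by ext <;> simp

/-- the two-sided orbit of `p` under `T_φ` -/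
def orbit (α : UnitAddCircle) (φ : UnitAddCircle → ℝ) (p : UnitAddCircle × ℝ) :
    Set (UnitAddCircle × ℝ) := Set.range fun n : ℤ => (cyl α φ ^ n) p

/-- the orbit of `p` has no accumulation point in `(ℝ/ℤ) × ℝ` -/
def IsDiscreteOrbit (α : UnitAddCircle) (φ : UnitAddCircle → ℝ) (p : UnitAddCircle × ℝ) : Prop :=
  ∀ q, ¬ AccPt q (𝓟 (orbit α φ p))

/-- `T_φ` is Besicovitch: some orbit is dense and some orbit is discrete. -/
def IsBesicovitch (α : UnitAddCircle) (φ : UnitAddCircle → ℝ) : Prop :=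
  (∃ p, Dense (orbit α φ p)) ∧ ∃ p, IsDiscreteOrbit α φ p

/-- `φ` is `γ`-Hölder continuous -/
def IsHolder (γ : ℝ) (φ : UnitAddCircle → ℝ) : Prop :=
  ∃ C : ℝ, ∀ x x' : UnitAddCircle, |φ x - φ x'| ≤ C * ‖x - x'‖ ^ γ

section criterion

variable {α : UnitAddCircle} {φ : UnitAddCircle → ℝ}

lemma cyl_zpow_continuous (hφ : Continuous φ) (n : ℤ) :
    Continuous (fun p => (cyl α φ ^ n) p) := by
  have h1 : Continuous (fun p => cyl α φ p) := by
    show Continuous fun p : UnitAddCircle × ℝ => (p.1 + α, p.2 + φ p.1)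
    fun_prop
  have h2 : Continuous (fun p => (cyl α φ)⁻¹ p) := by
    show Continuous fun p : UnitAddCircle × ℝ => (p.1 - α, p.2 - φ (p.1 - α))
    fun_prop
  induction n using Int.induction_on with
  | zero =>
    have : (fun p => (cyl α φ ^ (0 : ℤ)) p) = id := by funext p; simp
    rw [this]; exact continuous_id
  | succ n ih =>
    have : (fun p => (cyl α φ ^ ((n : ℤ) + 1)) p) = (fun p => (cyl α φ ^ (n : ℤ)) p) ∘ fun p => cyl α φ p := by
      funext p; rw [zpow_add_one]; rfl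
    rw [this]; exact ih.comp h1
  | pred n ih =>
    have : (fun p => (cyl α φ ^ (-(n : ℤ) - 1)) p)
        = (fun p => (cyl α φ ^ (-(n : ℤ))) p) ∘ fun p => (cyl α φ)⁻¹ p := by
      funext p; rw [zpow_sub_one]; rfl
    rw [this]; exact ih.comp h2

lemma cyl_zpow_fst (n : ℤ) : ∀ p, ((cyl α φ ^ n) p).1 = p.1 + n • α := by
  induction n using Int.induction_on with
  | zero => intro p; simp
  | succ n ih =>
    intro p
    rw [zpow_add_one, Equiv.Perm.mul_apply, ih]
    show p.1 + α + (n : ℤ) • α = p.1 + ((n : ℤ) + 1) • α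
    rw [add_zsmul, one_zsmul]; abel
  | pred n ih =>
    intro p
    rw [zpow_sub_one, Equiv.Perm.mul_apply, ih]
    show p.1 - α + (-(n : ℤ)) • α = p.1 + (-(n : ℤ) - 1) • α
    rw [sub_zsmul, one_zsmul]; abel

lemma cyl_zpow_snd (n : ℤ) : ∀ x y, ((cyl α φ ^ n) (x, y)).2 = y + ((cyl α φ ^ n) (x, 0)).2 := by
  induction n using Int.induction_on with
  | zero => intro x y; simp
  | succ n ih =>
    intro x y
    rw [zpow_add_one, Equiv.Perm.mul_apply, Equiv.Perm.mul_apply]
    show ((cyl α φ ^ (n : ℤ)) (x + α, y + φ x)).2 = y + ((cyl α φ ^ (n : ℤ)) (x + α, 0 + φ x)).2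
    rw [ih (x + α) (y + φ x), ih (x + α) (0 + φ x)]; ring
  | pred n ih =>
    intro x y
    rw [zpow_sub_one, Equiv.Perm.mul_apply, Equiv.Perm.mul_apply]
    show ((cyl α φ ^ (-(n : ℤ))) (x - α, y - φ (x - α))).2
      = y + ((cyl α φ ^ (-(n : ℤ))) (x - α, 0 - φ (x - α))).2
    rw [ih (x - α) (y - φ (x - α)), ih (x - α) (0 - φ (x - α))]; ring

lemma cyl_zpow_orbit {s : ℤ → ℝ} (hs : ∀ j : ℤ, φ (j • α) = s (j + 1) - s j) (n : ℤ) :
    ∀ (j : ℤ) (y : ℝ), (cyl α φ ^ n) (j • α, y) = ((j + n) • α, y + s (j + n) - s j) := by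
  induction n using Int.induction_on with
  | zero => intro j y; simp
  | succ n ih =>
    intro j y
    rw [zpow_add_one, Equiv.Perm.mul_apply]
    have : cyl α φ (j • α, y) = ((j + 1) • α, y + (s (j + 1) - s j)) := by
      show (j • α + α, y + φ (j • α)) = _
      rw [hs, add_zsmul, one_zsmul]
    rw [this, ih (j + 1)]
    have e : j + 1 + (n : ℤ) = j + ((n : ℤ) + 1) := by ring
    rw [e]
    ext <;> simp
    ring
  | pred n ih =>
    intro j y
    rw [zpow_sub_one, Equiv.Perm.mul_apply]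
    have : (cyl α φ)⁻¹ (j • α, y) = ((j - 1) • α, y - (s j - s (j - 1))) := by
      show (j • α - α, y - φ (j • α - α)) = _
      have e1 : j • α - α = (j - 1) • α := by rw [sub_zsmul, one_zsmul]; abel
      rw [e1, hs (j - 1), sub_add_cancel]
    rw [this, ih (j - 1)]
    have e : j - 1 + -(n : ℤ) = j + (-(n : ℤ) - 1) := by ring
    rw [e]
    ext <;> simp
    ring

/-- the criterion -/
theorem besicovitch_of_tendsto {a : ℝ} (ha : Irrational a) (hφ : Continuous φ) {s : ℤ → ℝ}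
    (hs : ∀ j : ℤ, φ (j • (a : UnitAddCircle)) = s (j + 1) - s j)
    (hlim : Tendsto s cofinite atTop) : IsBesicovitch (a : UnitAddCircle) φ := by
  set α : UnitAddCircle := (a : UnitAddCircle) with hα
  have hdense : DenseRange (fun n : ℤ => n • α) := by
    rw [hα]
    have := (AddCircle.denseRange_zsmul_coe_iff (a := a) (p := 1)).2 (by simpa using ha)
    exact this
  have hinf : ∀ (F : Set ℤ), F.Finite → ∀ (b : UnitAddCircle) (ε : ℝ), 0 < ε →
      ∃ n : ℤ, n ∉ F ∧ dist (n • α) b < ε := by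
    intro F hF b ε hε
    have hnt : Nontrivial UnitAddCircle := by
      refine ⟨⟨((1 / 2 : ℝ) : UnitAddCircle), 0, ?_⟩⟩
      intro h0
      rw [AddCircle.coe_eq_zero_iff] at h0
      obtain ⟨k, hk⟩ := h0
      rw [zsmul_eq_mul, mul_one] at hk
      have h2 : (2 * k : ℤ) = 1 := by
        have : (2 : ℝ) * k = 1 := by linarith
        exact_mod_cast this
      omega
    have hnb : ∀ x : UnitAddCircle, (𝓝[≠] x).NeBot := fun x =>
      ConnectedSpace.neBot_nhdsWithin_compl_of_nontrivial_of_t1space x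
    have h1 : Dense (Set.range (fun n : ℤ => n • α) \ ((fun n : ℤ => n • α) '' F)) :=
      Dense.sdiff_finite hdense (hF.image _)
    obtain ⟨y, ⟨⟨n, rfl⟩, hn2⟩, hy⟩ := h1.exists_dist_lt b hε |>.imp fun y hy => hy
    exact ⟨n, fun hn => hn2 ⟨n, hn, rfl⟩, by rw [dist_comm]; exact hy⟩
  -- transitivity, set version
  have htrans : ∀ U V : Set (UnitAddCircle × ℝ), IsOpen U → U.Nonempty → IsOpen V → V.Nonempty →
      ∃ n : ℤ, ∃ p ∈ U, (cyl α φ ^ n) p ∈ V := by
    rintro U V hU ⟨⟨x₀, y₀⟩, hxU⟩ hV ⟨⟨x₁, y₁⟩, hxV⟩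
    obtain ⟨ε₁, hε₁, hb₁⟩ := Metric.isOpen_iff.1 hU _ hxU
    obtain ⟨ε₂, hε₂, hb₂⟩ := Metric.isOpen_iff.1 hV _ hxV
    set δ := min ε₁ ε₂ with hδ
    have hδ0 : 0 < δ := lt_min hε₁ hε₂
    obtain ⟨m, -, hm⟩ := hinf ∅ finite_empty x₀ (δ / 4) (by positivity)
    obtain ⟨m', -, hm'⟩ := hinf ∅ finite_empty x₁ (δ / 4) (by positivity)
    -- finitely many bad n
    set c := y₁ - y₀ with hc
    have hf1 : {n : ℤ | ¬ (c + s m < s (m + n))}.Finite := by
      have h1 : Tendsto (fun n : ℤ => s (m + n)) cofinite atTop :=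
        hlim.comp (add_right_injective m).tendsto_cofinite
      exact h1.eventually_gt_atTop (c + s m)
    have hf2 : {n : ℤ | ¬ (s m' - c < s (m' - n))}.Finite := by
      have h1 : Tendsto (fun n : ℤ => s (m' - n)) cofinite atTop :=
        hlim.comp (sub_right_injective (b := m')).tendsto_cofinite
      exact h1.eventually_gt_atTop (s m' - c)
    obtain ⟨n, hnF, hn⟩ := hinf _ (hf1.union hf2) (x₁ - x₀) (δ / 4) (by positivity)
    rw [mem_union, not_or] at hnF
    obtain ⟨hn1, hn2⟩ := hnF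
    rw [Set.mem_ofPred_eq, not_not] at hn1 hn2
    -- real parametrisation of the ball
    obtain ⟨t₀, rfl⟩ := QuotientAddGroup.mk_surjective x₀
    have hrep : ∀ x : UnitAddCircle, dist x (t₀ : UnitAddCircle) < δ / 2 →
        ∃ t ∈ Ioo (t₀ - δ / 2) (t₀ + δ / 2), (t : UnitAddCircle) = x := by
      intro x hx
      obtain ⟨u, hu⟩ := QuotientAddGroup.mk_surjective (x - (t₀ : UnitAddCircle))
      have h1 : ‖(u : UnitAddCircle)‖ = |u - round u| := by
        have := AddCircle.norm_eq (p := 1) (x := u)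
        simpa using this
      have h2 : ‖x - (t₀ : UnitAddCircle)‖ < δ / 2 := by rwa [← dist_eq_norm]
      rw [← hu] at h2
      have h3 : |u - round u| < δ / 2 := by
        rw [← h1]; exact h2
      rw [abs_lt] at h3
      refine ⟨t₀ + (u - round u), ⟨by linarith [h3.1], by linarith [h3.2]⟩, ?_⟩
      have h4 : ((u - (round u : ℝ) : ℝ) : UnitAddCircle) = (u : UnitAddCircle) := by
        rw [AddCircle.coe_sub]
        have : (((round u : ℤ) : ℝ) : UnitAddCircle) = 0 := by
          rw [AddCircle.coe_eq_zero_iff]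
          exact ⟨round u, by simp⟩
        rw [this, sub_zero]
      rw [AddCircle.coe_add, h4]
      have : (u : UnitAddCircle) = x - (t₀ : UnitAddCircle) := hu
      rw [this]; abel
    have hball : ∀ t ∈ Ioo (t₀ - δ / 2) (t₀ + δ / 2),
        dist (t : UnitAddCircle) (t₀ : UnitAddCircle) < δ / 2 := by
      intro t ht
      rw [dist_eq_norm, ← AddCircle.coe_sub]
      have h1 : ‖((t - t₀ : ℝ) : UnitAddCircle)‖ ≤ |t - t₀| := by
        have := AddCircle.norm_eq (p := 1) (x := t - t₀)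
        rw [this]
        simp only [inv_one, one_mul, mul_one]
        exact round_le (t - t₀) 0 |>.trans (by simp)
      refine h1.trans_lt ?_
      rw [abs_lt]; constructor <;> linarith [ht.1, ht.2]
    set h : ℝ → ℝ := fun t => ((cyl α φ ^ n) ((t : UnitAddCircle), 0)).2 with hh
    have hcont : Continuous h := by
      have h1 := cyl_zpow_continuous (α := α) hφ n
      have h2 : Continuous fun t : ℝ => ((t : UnitAddCircle), (0 : ℝ)) :=
        (AddCircle.continuous_mk' 1).prodMk continuous_const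
      exact continuous_snd.comp (h1.comp h2)
    -- the two special points
    have hm1 : dist (m • α) (t₀ : UnitAddCircle) < δ / 2 := by
      have : dist (m • α) (t₀ : UnitAddCircle) < δ / 4 := hm
      linarith
    obtain ⟨t₁, ht₁, ht₁'⟩ := hrep _ hm1
    have hm2 : dist ((m' - n) • α) (t₀ : UnitAddCircle) < δ / 2 := by
      have e1 : (m' - n) • α - (t₀ : UnitAddCircle)
          = (m' • α - x₁) - (n • α - (x₁ - (t₀ : UnitAddCircle))) := by
        rw [sub_zsmul]; abel
      rw [dist_eq_norm, e1]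
      have h1 := norm_sub_le (m' • α - x₁) (n • α - (x₁ - (t₀ : UnitAddCircle)))
      rw [dist_eq_norm] at hm' hn
      have h2 : ‖n • α - (x₁ - (t₀ : UnitAddCircle))‖ < δ / 4 := hn
      linarith
    obtain ⟨t₂, ht₂, ht₂'⟩ := hrep _ hm2
    have hv1 : c < h t₁ := by
      simp only [hh]
      rw [ht₁', cyl_zpow_orbit hs]
      simp only
      linarith
    have hv2 : h t₂ < c := by
      simp only [hh]
      rw [ht₂', cyl_zpow_orbit hs, sub_add_cancel]
      simp only
      linarith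
    obtain ⟨t, ht, htc⟩ := isPreconnected_Ioo.intermediate_value ht₂ ht₁ hcont.continuousOn
      (show c ∈ Icc (h t₂) (h t₁) from ⟨hv2.le, hv1.le⟩)
    refine ⟨n, ((t : UnitAddCircle), y₀), ?_, ?_⟩
    · apply hb₁
      rw [Metric.mem_ball, Prod.dist_eq]
      simp only [dist_self]
      have h1 := hball t ht
      have h2 : δ ≤ ε₁ := min_le_left _ _
      exact max_lt (lt_of_lt_of_le (by
        have : dist (t : UnitAddCircle) (t₀ : UnitAddCircle) < δ / 2 := h1
        linarith) h2) hε₁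
    · apply hb₂
      have e1 : (cyl α φ ^ n) ((t : UnitAddCircle), y₀) = ((t : UnitAddCircle) + n • α, y₁) := by
        ext
        · rw [cyl_zpow_fst]
        · rw [cyl_zpow_snd]
          show y₀ + h t = y₁
          rw [htc, hc]; ring
      rw [e1, Metric.mem_ball, Prod.dist_eq]
      simp only [dist_self]
      have h2 : δ ≤ ε₂ := min_le_right _ _
      refine max_lt (lt_of_lt_of_le ?_ h2) hε₂
      have e2 : (t : UnitAddCircle) + n • α - x₁ = ((t : UnitAddCircle) - (t₀ : UnitAddCircle))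
          + (n • α - (x₁ - (t₀ : UnitAddCircle))) := by abel
      rw [dist_eq_norm, e2]
      have h3 := norm_add_le ((t : UnitAddCircle) - (t₀ : UnitAddCircle))
        (n • α - (x₁ - (t₀ : UnitAddCircle)))
      have h4 : ‖(t : UnitAddCircle) - (t₀ : UnitAddCircle)‖ < δ / 2 := by
        rw [← dist_eq_norm]; exact hball t ht
      have h5 : ‖n • α - (x₁ - (t₀ : UnitAddCircle))‖ < δ / 4 := by
        rw [← dist_eq_norm]; exact hn
      linarith
  constructor
  · -- dense orbit by Baire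
    set B := TopologicalSpace.countableBasis (UnitAddCircle × ℝ) with hB
    have hBc : B.Countable := TopologicalSpace.countable_countableBasis _
    have hBb : TopologicalSpace.IsTopologicalBasis B := TopologicalSpace.isBasis_countableBasis _
    have hdenseG : Dense (⋂ V ∈ B, ⋃ n : ℤ, (fun p => (cyl α φ ^ n) p) ⁻¹' V) := by
      apply dense_biInter_of_isOpen
      · intro V hV
        exact isOpen_iUnion fun n => (hBb.isOpen hV).preimage (cyl_zpow_continuous hφ n)
      · exact hBc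
      · intro V hV
        rw [dense_iff_inter_open]
        intro U hU hUne
        have hVne : V.Nonempty := TopologicalSpace.nonempty_of_mem_countableBasis hV
        obtain ⟨n, p, hp, hpV⟩ := htrans U V hU hUne (hBb.isOpen hV) hVne
        exact ⟨p, hp, mem_iUnion.2 ⟨n, hpV⟩⟩
    obtain ⟨p, hp⟩ := hdenseG.nonempty
    refine ⟨p, ?_⟩
    rw [hBb.dense_iff]
    intro V hV hVne
    have := mem_iInter₂.1 hp V hV
    obtain ⟨n, hn⟩ := mem_iUnion.1 this
    exact ⟨_, hn, ⟨n, rfl⟩⟩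
  · refine ⟨((0 : UnitAddCircle), 0), fun q hq => ?_⟩
    have horb : ∀ n : ℤ, (cyl α φ ^ n) ((0 : UnitAddCircle), (0 : ℝ)) = (n • α, s n - s 0) := by
      intro n
      have := cyl_zpow_orbit hs n 0 0
      simpa using this
    -- finitely many orbit points near q
    have hfin : {n : ℤ | ¬ (q.2 + 1 + s 0 < s n)}.Finite := hlim.eventually_gt_atTop _
    have hnhds : {p : UnitAddCircle × ℝ | p.2 < q.2 + 1} ∈ 𝓝 q :=
      (isOpen_lt continuous_snd continuous_const).mem_nhds (by simp)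
    have hfin2 : ({p : UnitAddCircle × ℝ | p.2 < q.2 + 1} ∩ orbit α φ (0, 0)).Finite := by
      refine (hfin.image fun n : ℤ => (cyl α φ ^ n) ((0 : UnitAddCircle), (0 : ℝ))).subset ?_
      rintro p ⟨hp, n, rfl⟩
      refine ⟨n, ?_, rfl⟩
      simp only [horb, Set.mem_ofPred_eq] at hp
      rw [Set.mem_ofPred_eq, not_lt]
      linarith
    have hcl : IsClosed (({p : UnitAddCircle × ℝ | p.2 < q.2 + 1} ∩ orbit α φ (0, 0)) \ {q}) :=
      (hfin2.subset sdiff_subset).isClosed
    rw [accPt_iff_nhds] at hq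
    obtain ⟨y, ⟨⟨hy1, hy2⟩, hy3⟩, hy4⟩ := hq _ (inter_mem hnhds (hcl.isOpen_compl.mem_nhds
      (show q ∈ (({p : UnitAddCircle × ℝ | p.2 < q.2 + 1} ∩ orbit α φ (0, 0)) \ {q})ᶜ from
        fun h => h.2 rfl)))
    exact hy2 ⟨⟨hy1, hy3⟩, hy4⟩

end criterion

section construction

open Real

/-- the contraction ratio `-ψ = 1/φ` -/
noncomputable def c : ℝ := -goldenConj

lemma c_pos : 0 < c := by unfold c; linarith [goldenConj_neg]

lemma c_lt_one : c < 1 := by unfold c; linarith [neg_one_lt_goldenConj]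

lemma c_eq : c = goldenRatio⁻¹ := by rw [inv_goldenRatio]; rfl

lemma half_lt_c : 1 / 2 < c := by
  rw [c_eq, ← one_div]
  apply one_div_lt_one_div_of_lt goldenRatio_pos goldenRatio_lt_two

lemma abs_psi_pow (k : ℕ) : |goldenConj ^ k| = c ^ k := by
  rw [abs_pow, abs_of_neg goldenConj_neg]; rfl

lemma fib_le (k : ℕ) : (Nat.fib k : ℝ) ≤ goldenRatio ^ k := by
  induction k using Nat.strong_induction_on with
  | _ k ih =>
    match k with
    | 0 => simp
    | 1 => simpa using one_lt_goldenRatio.le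
    | k + 2 =>
      rw [Nat.fib_add_two]
      push_cast
      have h1 := ih k (by omega)
      have h2 := ih (k + 1) (by omega)
      have h3 : goldenRatio ^ (k + 2) = goldenRatio ^ k + goldenRatio ^ (k + 1) := by
        rw [pow_add, goldenRatio_sq, pow_succ]; ring
      linarith

/-- the terms of `s` -/
noncomputable def sterm (n : ℤ) (k : ℕ) : ℝ :=
  ((k : ℝ) + 1) * (1 - cos (2 * π * n * goldenConj ^ k))

/-- the cocycle along the orbit of `0` -/
noncomputable def sfun (n : ℤ) : ℝ := ∑' k, sterm n k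

lemma summable_lin {r : ℝ} (h0 : 0 ≤ r) (h1 : r < 1) : Summable fun k : ℕ => ((k : ℝ) + 1) * r ^ k := by
  have h2 := summable_pow_mul_geometric_of_norm_lt_one (R := ℝ) 1 (r := r)
    (by rw [Real.norm_eq_abs, abs_of_nonneg h0]; exact h1)
  have h3 := summable_geometric_of_lt_one h0 h1
  refine (h2.add h3).congr fun k => ?_
  simp only [pow_one]; ring

lemma sterm_nonneg (n : ℤ) (k : ℕ) : 0 ≤ sterm n k := by
  unfold sterm
  have := cos_le_one (2 * π * n * goldenConj ^ k)
  apply mul_nonneg (by positivity)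
  linarith

lemma summable_sterm (n : ℤ) : Summable (sterm n) := by
  have h1 : Summable fun k : ℕ => (2 * π * n) ^ 2 / 2 * (((k : ℝ) + 1) * (c ^ 2) ^ k) :=
    (summable_lin (by positivity) (by nlinarith [c_pos, c_lt_one])).mul_left _
  refine Summable.of_nonneg_of_le (sterm_nonneg n) (fun k => ?_) h1
  unfold sterm
  have h2 := one_sub_sq_div_two_le_cos (x := 2 * π * n * goldenConj ^ k)
  have h3 : (2 * π * n * goldenConj ^ k) ^ 2 = (2 * π * n) ^ 2 * (c ^ 2) ^ k := by
    rw [mul_pow, ← sq_abs (goldenConj ^ k), abs_psi_pow, ← pow_mul, ← pow_mul, mul_comm k 2]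
  rw [h3] at h2
  have h4 : (0 : ℝ) ≤ (k : ℝ) + 1 := by positivity
  nlinarith

lemma sfun_large {k₀ : ℕ} {n : ℤ} (hn : 3 / 4 < |(n : ℝ)| * c ^ k₀) : (k₀ : ℝ) + 1 ≤ sfun n := by
  have hc0 := c_pos
  have hc1 := c_lt_one
  have hex : ∃ k : ℕ, |(n : ℝ)| * c ^ k ≤ 3 / 4 := by
    have h1 := (tendsto_pow_atTop_nhds_zero_of_lt_one hc0.le hc1).const_mul |(n : ℝ)|
    rw [mul_zero] at h1
    obtain ⟨k, hk⟩ := (h1.eventually (gt_mem_nhds (show (0 : ℝ) < 3 / 4 by norm_num))).exists
    exact ⟨k, hk.le⟩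
  classical
  set k := Nat.find hex with hk
  have hk1 : |(n : ℝ)| * c ^ k ≤ 3 / 4 := Nat.find_spec hex
  have hkk : k₀ < k := by
    by_contra hcon
    push Not at hcon
    have h2 : c ^ k₀ ≤ c ^ k := pow_le_pow_of_le_one hc0.le hc1.le hcon
    have h3 := mul_le_mul_of_nonneg_left h2 (abs_nonneg (n : ℝ))
    linarith
  obtain ⟨j, hj⟩ : ∃ j, k = j + 1 := ⟨k - 1, by omega⟩
  have hk2 : 3 / 4 < |(n : ℝ)| * c ^ j := by
    have := Nat.find_min hex (show j < k by omega)
    rwa [not_le] at this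
  have hk3 : 1 / 4 ≤ |(n : ℝ)| * c ^ k := by
    rw [hj, pow_succ]
    have := half_lt_c
    nlinarith
  have hcos : cos (2 * π * n * goldenConj ^ k) ≤ 0 := by
    rw [← cos_abs]
    have h5 : |2 * π * n * goldenConj ^ k| = 2 * π * (|(n : ℝ)| * c ^ k) := by
      rw [abs_mul, abs_mul, abs_psi_pow, abs_of_pos (by positivity : (0 : ℝ) < 2 * π)]; ring
    rw [h5]
    have := Real.pi_pos
    apply cos_nonpos_of_pi_div_two_le_of_le <;> nlinarith
  have h6 : sterm n k ≤ sfun n := (summable_sterm n).le_tsum k (fun j _ => sterm_nonneg n j)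
  have h7 : (k : ℝ) + 1 ≤ sterm n k := by
    unfold sterm
    have : (0 : ℝ) ≤ (k : ℝ) + 1 := by positivity
    nlinarith
  have h8 : (k₀ : ℝ) ≤ k := by exact_mod_cast hkk.le
  linarith

lemma sfun_tendsto : Tendsto sfun cofinite atTop := by
  rw [tendsto_atTop]
  intro M
  obtain ⟨k₀, hk₀⟩ := exists_nat_gt M
  have hc0 := c_pos
  obtain ⟨N, hN⟩ := exists_nat_gt (3 / 4 / c ^ k₀)
  rw [div_lt_iff₀ (by positivity)] at hN
  have hfin : (Icc (-(N : ℤ)) N).Finite := finite_Icc _ _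
  rw [Filter.eventually_cofinite]
  refine hfin.subset fun n hn => ?_
  rw [Set.mem_ofPred_eq] at hn
  by_contra hcon
  apply hn
  have hbig : (N : ℝ) ≤ |(n : ℝ)| := by
    rw [mem_Icc, ← abs_le, not_le] at hcon
    have : ((N : ℤ) : ℝ) < ((|n| : ℤ) : ℝ) := by exact_mod_cast hcon
    push_cast at this
    exact this.le
  have h1 : 3 / 4 < |(n : ℝ)| * c ^ k₀ := by
    have := mul_le_mul_of_nonneg_right hbig (pow_pos hc0 k₀).le
    linarith
  have := sfun_large h1
  linarith

/-- the terms of the cocycle function -/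
noncomputable def fterm (k : ℕ) (t : ℝ) : ℝ :=
  ((k : ℝ) + 1) * (cos (2 * π * Nat.fib k * t) - cos (2 * π * Nat.fib k * t - 2 * π * goldenConj ^ k))

/-- the lift of the cocycle function to `ℝ` -/
noncomputable def bigPhi (t : ℝ) : ℝ := ∑' k, fterm k t

lemma abs_sin_le_abs' (x : ℝ) : |sin x| ≤ |x| := by
  exact abs_sin_le_abs

lemma fterm_eq (k : ℕ) (t : ℝ) : fterm k t = -2 * ((k : ℝ) + 1) *
    (sin (2 * π * Nat.fib k * t - π * goldenConj ^ k) * sin (π * goldenConj ^ k)) := by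
  unfold fterm
  rw [cos_sub_cos]
  have e1 : (2 * π * Nat.fib k * t + (2 * π * Nat.fib k * t - 2 * π * goldenConj ^ k)) / 2
      = 2 * π * Nat.fib k * t - π * goldenConj ^ k := by ring
  have e2 : (2 * π * Nat.fib k * t - (2 * π * Nat.fib k * t - 2 * π * goldenConj ^ k)) / 2
      = π * goldenConj ^ k := by ring
  rw [e1, e2]; ring

lemma sin_psi_le (k : ℕ) : |sin (π * goldenConj ^ k)| ≤ π * c ^ k := by
  refine (abs_sin_le_abs' _).trans (le_of_eq ?_)
  rw [abs_mul, abs_psi_pow, abs_of_pos Real.pi_pos]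

lemma fterm_abs_le (k : ℕ) (t : ℝ) : |fterm k t| ≤ 2 * π * (((k : ℝ) + 1) * c ^ k) := by
  rw [fterm_eq, abs_mul, abs_mul, abs_mul]
  have h1 := sin_psi_le k
  have h2 := abs_sin_le_one (2 * π * Nat.fib k * t - π * goldenConj ^ k)
  have h3 : |(-2 : ℝ)| = 2 := by norm_num
  have h4 : |(k : ℝ) + 1| = (k : ℝ) + 1 := abs_of_nonneg (by positivity)
  rw [h3, h4]
  have h5 : |sin (2 * π * Nat.fib k * t - π * goldenConj ^ k)| * |sin (π * goldenConj ^ k)|
      ≤ 1 * (π * c ^ k) := mul_le_mul h2 h1 (abs_nonneg _) zero_le_one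
  calc 2 * ((k : ℝ) + 1) * (|sin (2 * π * Nat.fib k * t - π * goldenConj ^ k)|
        * |sin (π * goldenConj ^ k)|) ≤ 2 * ((k : ℝ) + 1) * (1 * (π * c ^ k)) :=
        mul_le_mul_of_nonneg_left h5 (by positivity)
    _ = _ := by ring

lemma summable_fterm (t : ℝ) : Summable (fun k => fterm k t) := by
  have h1 := (summable_lin c_pos.le c_lt_one).mul_left (2 * π)
  exact Summable.of_norm_bounded h1 fun k => fterm_abs_le k t

lemma min_le_rpow {w γ : ℝ} (hw : 0 ≤ w) (h0 : 0 < γ) (h1 : γ < 1) {d : ℝ} (hd1 : d ≤ w)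
    (hd2 : d ≤ 2) : d ≤ 2 * w ^ γ := by
  rcases le_total w 1 with h | h
  · have h2 : w ≤ w ^ γ := by
      rcases hw.eq_or_lt with h3 | h3
      · rw [← h3, zero_rpow h0.ne']
      · calc w = w ^ (1 : ℝ) := (rpow_one w).symm
          _ ≤ w ^ γ := rpow_le_rpow_of_exponent_ge h3 h h1.le
    have h3 : 0 ≤ w ^ γ := rpow_nonneg hw γ
    linarith
  · have h2 : 1 ≤ w ^ γ := one_le_rpow h h0.le
    linarith

lemma fterm_sub_le {γ : ℝ} (h0 : 0 < γ) (h1 : γ < 1) (k : ℕ) (t t' : ℝ) :
    |fterm k t - fterm k t'| ≤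
      (4 * π * (2 * π) ^ γ * |t - t'| ^ γ) * (((k : ℝ) + 1) * (c ^ (1 - γ)) ^ k) := by
  have hc0 := c_pos
  rw [fterm_eq, fterm_eq]
  set u := 2 * π * Nat.fib k * t - π * goldenConj ^ k with hu
  set u' := 2 * π * Nat.fib k * t' - π * goldenConj ^ k with hu'
  have e1 : -2 * ((k : ℝ) + 1) * (sin u * sin (π * goldenConj ^ k))
      - -2 * ((k : ℝ) + 1) * (sin u' * sin (π * goldenConj ^ k))
      = (-2 * ((k : ℝ) + 1) * sin (π * goldenConj ^ k)) * (sin u - sin u') := by ring
  rw [e1, abs_mul, abs_mul, abs_mul]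
  have h3 : |(-2 : ℝ)| = 2 := by norm_num
  have h4 : |(k : ℝ) + 1| = (k : ℝ) + 1 := abs_of_nonneg (by positivity)
  rw [h3, h4]
  have h5 : |sin u - sin u'| ≤ |u - u'| := by
    rw [sin_sub_sin]
    rw [abs_mul, abs_mul]
    have h6 := abs_sin_le_abs' ((u - u') / 2)
    have h7 := abs_cos_le_one ((u + u') / 2)
    have h8 : |(u - u') / 2| = |u - u'| / 2 := by rw [abs_div]; norm_num
    rw [h8] at h6
    have h9 : |(2 : ℝ)| = 2 := by norm_num
    rw [h9]
    have h10 := mul_le_mul h6 h7 (abs_nonneg _) (by positivity)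
    nlinarith
  have h6 : |sin u - sin u'| ≤ 2 := by
    have h7 := abs_sub (sin u) (sin u')
    have h8 := abs_sin_le_one u
    have h9 := abs_sin_le_one u'
    linarith
  have h7 : u - u' = 2 * π * (Nat.fib k * (t - t')) := by rw [hu, hu']; ring
  have h8 : |u - u'| = 2 * π * (Nat.fib k * |t - t'|) := by
    rw [h7, abs_mul (2 * π), abs_mul (Nat.fib k : ℝ), abs_of_pos (by positivity : (0 : ℝ) < 2 * π),
      Nat.abs_cast]
  have h9 : |sin u - sin u'| ≤ 2 * (2 * π * (goldenRatio ^ k * |t - t'|)) ^ γ := by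
    have hg0 := goldenRatio_pos
    apply min_le_rpow (by positivity) h0 h1 _ h6
    refine h5.trans ?_
    rw [h8]
    have := fib_le k
    gcongr
  have h10 : (2 * π * (goldenRatio ^ k * |t - t'|)) ^ γ
      = (2 * π) ^ γ * ((goldenRatio ^ k) ^ γ * |t - t'| ^ γ) := by
    have hg0 := goldenRatio_pos
    rw [mul_rpow (by positivity : (0 : ℝ) ≤ 2 * π)
      (by positivity : (0 : ℝ) ≤ goldenRatio ^ k * |t - t'|),
      mul_rpow (by positivity : (0 : ℝ) ≤ goldenRatio ^ k) (abs_nonneg _)]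
  have h11 : c ^ k * (goldenRatio ^ k) ^ γ = (c ^ (1 - γ)) ^ k := by
    have hg : goldenRatio = c⁻¹ := by rw [c_eq, inv_inv]
    rw [hg, inv_pow, inv_rpow (by positivity), ← rpow_natCast c k, ← rpow_mul hc0.le,
      ← rpow_neg hc0.le, ← rpow_add hc0, ← rpow_natCast (c ^ (1 - γ)) k, ← rpow_mul hc0.le]
    congr 1; ring
  have h12 := sin_psi_le k
  calc 2 * ((k : ℝ) + 1) * |sin (π * goldenConj ^ k)| * |sin u - sin u'|
      ≤ 2 * ((k : ℝ) + 1) * (π * c ^ k) * (2 * ((2 * π) ^ γ * ((goldenRatio ^ k) ^ γ * |t - t'| ^ γ))) := by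
        rw [← h10]
        gcongr
    _ = (4 * π * (2 * π) ^ γ * |t - t'| ^ γ) * (((k : ℝ) + 1) * (c ^ k * (goldenRatio ^ k) ^ γ)) := by
        ring
    _ = _ := by rw [h11]

lemma bigPhi_sub_le {γ : ℝ} (h0 : 0 < γ) (h1 : γ < 1) :
    ∃ C : ℝ, ∀ t t', |bigPhi t - bigPhi t'| ≤ C * |t - t'| ^ γ := by
  have hc0 := c_pos
  have hr0 : 0 ≤ c ^ (1 - γ) := rpow_nonneg hc0.le _
  have hr1 : c ^ (1 - γ) < 1 := rpow_lt_one hc0.le c_lt_one (by linarith)
  have hs := summable_lin hr0 hr1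
  refine ⟨4 * π * (2 * π) ^ γ * ∑' k : ℕ, ((k : ℝ) + 1) * (c ^ (1 - γ)) ^ k, fun t t' => ?_⟩
  unfold bigPhi
  rw [← (summable_fterm t).tsum_sub (summable_fterm t')]
  have h2 := hs.mul_left (4 * π * (2 * π) ^ γ * |t - t'| ^ γ)
  have h3 : Summable fun k => |fterm k t - fterm k t'| :=
    Summable.of_nonneg_of_le (fun _ => abs_nonneg _) (fun k => fterm_sub_le h0 h1 k t t') h2
  calc |∑' k, (fterm k t - fterm k t')| ≤ ∑' k, |fterm k t - fterm k t'| := by
        have := norm_tsum_le_tsum_norm (f := fun k => fterm k t - fterm k t') (by simpa using h3)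
        simpa using this
    _ ≤ ∑' k : ℕ, (4 * π * (2 * π) ^ γ * |t - t'| ^ γ) * (((k : ℝ) + 1) * (c ^ (1 - γ)) ^ k) :=
        h3.tsum_le_tsum (fun k => fterm_sub_le h0 h1 k t t') h2
    _ = _ := by rw [tsum_mul_left]; ring

lemma bigPhi_periodic : Function.Periodic bigPhi 1 := by
  intro t
  unfold bigPhi
  refine tsum_congr fun k => ?_
  unfold fterm
  have e1 : 2 * π * Nat.fib k * (t + 1) = 2 * π * Nat.fib k * t + (Nat.fib k : ℕ) * (2 * π) := by
    ring
  have e2 : 2 * π * Nat.fib k * (t + 1) - 2 * π * goldenConj ^ k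
      = (2 * π * Nat.fib k * t - 2 * π * goldenConj ^ k) + (Nat.fib k : ℕ) * (2 * π) := by
    ring
  rw [e2, e1, cos_add_nat_mul_two_pi, cos_add_nat_mul_two_pi]

/-- the function on the circle -/
noncomputable def phi : UnitAddCircle → ℝ := bigPhi_periodic.lift

lemma phi_coe (t : ℝ) : phi (t : UnitAddCircle) = bigPhi t := bigPhi_periodic.lift_coe t

lemma phi_holder {γ : ℝ} (h0 : 0 < γ) (h1 : γ < 1) : IsHolder γ phi := by
  obtain ⟨C, hC⟩ := bigPhi_sub_le h0 h1
  refine ⟨C, fun x x' => ?_⟩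
  obtain ⟨t', rfl⟩ := QuotientAddGroup.mk_surjective x'
  obtain ⟨u, hu⟩ := QuotientAddGroup.mk_surjective (x - (t' : UnitAddCircle))
  have hu' : (u : UnitAddCircle) = x - (t' : UnitAddCircle) := hu
  have h2 : ‖(u : UnitAddCircle)‖ = |u - round u| := by
    have := AddCircle.norm_eq (p := 1) (x := u)
    simpa using this
  have h4 : ((u - (round u : ℝ) : ℝ) : UnitAddCircle) = (u : UnitAddCircle) := by
    rw [AddCircle.coe_sub]
    have : (((round u : ℤ) : ℝ) : UnitAddCircle) = 0 := by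
      rw [AddCircle.coe_eq_zero_iff]
      exact ⟨round u, by simp⟩
    rw [this, sub_zero]
  have hx : x = ((t' + (u - round u) : ℝ) : UnitAddCircle) := by
    rw [AddCircle.coe_add, h4, hu']; abel
  have h5 := hC (t' + (u - round u)) t'
  rw [add_sub_cancel_left] at h5
  show |phi x - phi (t' : UnitAddCircle)| ≤ C * ‖x - (t' : UnitAddCircle)‖ ^ γ
  rw [← hu', h2]
  rw [hx, phi_coe, phi_coe]
  exact h5

lemma phi_continuous : Continuous phi := by
  obtain ⟨C, hC⟩ := phi_holder (γ := 1 / 2) (by norm_num) (by norm_num)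
  rw [continuous_iff_continuousAt]
  intro x₀
  unfold ContinuousAt
  rw [tendsto_iff_norm_sub_tendsto_zero]
  have h1 : Tendsto (fun x : UnitAddCircle => C * ‖x - x₀‖ ^ (1 / 2 : ℝ)) (𝓝 x₀) (𝓝 0) := by
    have h2 : Continuous fun x : UnitAddCircle => C * ‖x - x₀‖ ^ (1 / 2 : ℝ) :=
      continuous_const.mul ((continuous_id.sub continuous_const).norm.rpow_const
        (fun _ => Or.inr (by norm_num)))
    have h3 := h2.tendsto x₀
    simpa using h3
  exact squeeze_zero (fun _ => norm_nonneg _) (fun x => hC x x₀) h1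

lemma phi_orbit (j : ℤ) : phi (j • ((goldenRatio : ℝ) : UnitAddCircle)) = sfun (j + 1) - sfun j := by
  rw [← AddCircle.coe_zsmul, phi_coe]
  unfold bigPhi sfun
  rw [← (summable_sterm (j + 1)).tsum_sub (summable_sterm j)]
  refine tsum_congr fun k => ?_
  unfold fterm sterm
  have hF := fib_succ_sub_goldenRatio_mul_fib k
  have e1 : 2 * π * Nat.fib k * (j • goldenRatio)
      = ((j * (Nat.fib (k + 1) : ℤ) : ℤ) : ℝ) * (2 * π) - 2 * π * j * goldenConj ^ k := by
    rw [zsmul_eq_mul, ← hF]; push_cast; ring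
  have e2 : 2 * π * Nat.fib k * (j • goldenRatio) - 2 * π * goldenConj ^ k
      = ((j * (Nat.fib (k + 1) : ℤ) : ℤ) : ℝ) * (2 * π)
        - 2 * π * ((j + 1 : ℤ) : ℝ) * goldenConj ^ k := by
    rw [e1]; push_cast; ring
  rw [e2, e1, cos_int_mul_two_pi_sub, cos_int_mul_two_pi_sub]
  ring

end construction

/-- **Full answer to Q1: yes.** Over the golden rotation there is a continuous function on the
circle, which is `γ`-Hölder for every `γ < 1` (in particular for exponents `≥ 1/2`), and whose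
cylindrical transformation is Besicovitch. -/
theorem result : Irrational Real.goldenRatio ∧
    ∃ φ : UnitAddCircle → ℝ, Continuous φ ∧ (∀ γ : ℝ, 0 < γ → γ < 1 → IsHolder γ φ) ∧
      IsBesicovitch ((Real.goldenRatio : ℝ) : UnitAddCircle) φ :=
  ⟨Real.goldenRatio_irrational, phi, phi_continuous, fun _ h0 h1 => phi_holder h0 h1,
    besicovitch_of_tendsto Real.goldenRatio_irrational phi_continuous phi_orbit sfun_tendsto⟩

end Pool.Agent.Results.MP_f73729_an.AlmostLipschitzBesicovitch
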